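import Mathlib

/-!
# Primitives on convex domains
-/

set_option autoImplicit false

namespace Pool.Agent.TH609.Z

open Filter Topology Metric Set MeasureTheory
open scoped Real Interval

/-- a holomorphic function on a convex open set that contains `0` has a primitive -/
theorem exists_prim_convex {f : ℂ → ℂ} {S : Set ℂ} (hS : IsOpen S) (hc : Convex ℝ S)
    (h0 : (0 : ℂ) ∈ S) (hf : DifferentiableOn ℂ f S) :
    ∃ Λ : ℂ → ℂ, Λ 0 = 0 ∧ ∀ z ∈ S, HasDerivAt Λ (f z) z := by
  have hf' : DifferentiableOn ℂ (deriv f) S := hf.deriv hS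
  have hmem : ∀ z ∈ S, ∀ t ∈ Icc (0:ℝ) 1, (t : ℂ) * z ∈ S := by
    intro z hz t ht
    have h := hc h0 hz (a := 1 - t) (b := t) (by linarith [ht.2]) ht.1 (by ring)
    simpa using h
  refine ⟨fun z => ∫ t in (0:ℝ)..1, z * f (t * z), by simp, ?_⟩
  intro z₀ hz₀
  obtain ⟨ε, hε, hεS⟩ := Metric.isOpen_iff.1 hS z₀ hz₀
  have hball : closedBall z₀ (ε / 2) ⊆ S :=
    (closedBall_subset_ball (by linarith)).trans hεS
  set F' : ℂ → ℝ → ℂ := fun z t => f (t * z) + z * (t * deriv f (t * z)) with hF'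
  -- continuity
  have hc1 : ∀ z ∈ S, ContinuousOn (fun t : ℝ => f (t * z)) (Icc 0 1) := by
    intro z hz
    exact hf.continuousOn.comp (by fun_prop) (fun t ht => hmem z hz t ht)
  have hc2 : ∀ z ∈ S, ContinuousOn (fun t : ℝ => deriv f (t * z)) (Icc 0 1) := by
    intro z hz
    exact hf'.continuousOn.comp (by fun_prop) (fun t ht => hmem z hz t ht)
  have hc3 : ContinuousOn (fun p : ℂ × ℝ => F' p.1 p.2) (closedBall z₀ (ε / 2) ×ˢ Icc (0:ℝ) 1) := by
    have m : MapsTo (fun p : ℂ × ℝ => (p.2 : ℂ) * p.1) (closedBall z₀ (ε / 2) ×ˢ Icc (0:ℝ) 1) S :=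
      fun p hp => hmem _ (hball hp.1) _ hp.2
    have c0 : ContinuousOn (fun p : ℂ × ℝ => (p.2 : ℂ) * p.1)
        (closedBall z₀ (ε / 2) ×ˢ Icc (0:ℝ) 1) := by fun_prop
    have c1 := hf.continuousOn.comp c0 m
    have c2 := hf'.continuousOn.comp c0 m
    have c3 : ContinuousOn (fun p : ℂ × ℝ => (p.2 : ℂ)) (closedBall z₀ (ε / 2) ×ˢ Icc (0:ℝ) 1) := by
      fun_prop
    have c4 : ContinuousOn (fun p : ℂ × ℝ => p.1) (closedBall z₀ (ε / 2) ×ˢ Icc (0:ℝ) 1) := by
      fun_prop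
    exact c1.add (c4.mul (c3.mul c2))
  obtain ⟨B, hB⟩ := ((isCompact_closedBall z₀ (ε / 2)).prod isCompact_Icc).exists_bound_of_continuousOn
    hc3
  have key := intervalIntegral.hasDerivAt_integral_of_dominated_loc_of_deriv_le
    (μ := volume) (a := 0) (b := 1) (F := fun (z : ℂ) (t : ℝ) => z * f (t * z)) (F' := F')
    (x₀ := z₀) (s := closedBall z₀ (ε / 2)) (bound := fun _ => B)
    (closedBall_mem_nhds z₀ (by linarith)) ?_ ?_ ?_ ?_ ?_ ?_
  · refine key.2.congr_deriv ?_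
    have hd : ∀ t ∈ uIcc (0:ℝ) 1, HasDerivAt (fun t : ℝ => (t : ℂ) * f (t * z₀)) (F' z₀ t) t := by
      intro t ht
      rw [uIcc_of_le zero_le_one] at ht
      have h1 : HasDerivAt f (deriv f (t * z₀)) ((t : ℂ) * z₀) :=
        (hf.differentiableAt (hS.mem_nhds (hmem z₀ hz₀ t ht))).hasDerivAt
      have h2 : HasDerivAt (fun s : ℂ => s * z₀) z₀ (t : ℂ) := by
        simpa using (hasDerivAt_id (t : ℂ)).mul_const z₀
      have h3 : HasDerivAt (fun s : ℂ => f (s * z₀)) (deriv f (t * z₀) * z₀) (t : ℂ) :=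
        HasDerivAt.comp (h := fun s : ℂ => s * z₀) (t : ℂ) h1 h2
      have h4 := ((hasDerivAt_id (t : ℂ)).mul h3).comp_ofReal
      refine h4.congr_deriv ?_
      simp only [hF', id]
      ring
    have hint : IntervalIntegrable (F' z₀) volume 0 1 := key.1
    have h := intervalIntegral.integral_eq_sub_of_hasDerivAt hd hint
    rw [h]
    simp
  · filter_upwards [hS.mem_nhds hz₀] with z hz
    rw [Set.uIoc_of_le zero_le_one]
    exact ((continuousOn_const.mul (hc1 z hz)).mono Ioc_subset_Icc_self).aestronglyMeasurable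
      measurableSet_Ioc
  · apply ContinuousOn.intervalIntegrable
    rw [uIcc_of_le zero_le_one]
    exact continuousOn_const.mul (hc1 z₀ hz₀)
  · rw [Set.uIoc_of_le zero_le_one]
    apply ContinuousOn.aestronglyMeasurable _ measurableSet_Ioc
    apply ContinuousOn.mono _ Ioc_subset_Icc_self
    have c3 : ContinuousOn (fun t : ℝ => (t : ℂ)) (Icc 0 1) := by fun_prop
    exact (hc1 z₀ hz₀).add (continuousOn_const.mul (c3.mul (hc2 z₀ hz₀)))
  · refine ae_of_all _ fun t ht z hz => ?_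
    rw [Set.uIoc_of_le zero_le_one] at ht
    exact hB (z, t) ⟨hz, Ioc_subset_Icc_self ht⟩
  · exact intervalIntegrable_const
  · refine ae_of_all _ fun t ht z hz => ?_
    rw [Set.uIoc_of_le zero_le_one] at ht
    have ht' := Ioc_subset_Icc_self ht
    have h1 : HasDerivAt f (deriv f (t * z)) ((t : ℂ) * z) :=
      (hf.differentiableAt (hS.mem_nhds (hmem z (hball hz) t ht'))).hasDerivAt
    have h2 : HasDerivAt (fun s : ℂ => (t : ℂ) * s) (t : ℂ) z := by
      simpa using (hasDerivAt_id z).const_mul (t : ℂ)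
    have h3 : HasDerivAt (fun s : ℂ => f ((t : ℂ) * s)) (deriv f (t * z) * t) z :=
      HasDerivAt.comp (h := fun s : ℂ => (t : ℂ) * s) z h1 h2
    have h4 := (hasDerivAt_id z).mul h3
    refine h4.congr_deriv ?_
    simp only [hF', id]
    ring

end Pool.Agent.TH609.Z
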