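import Pool.Agent.W583.HTPoth
import Pool.Agent.TH609.Z.Prim

/-!
# The potential at a hinge, without smallness of the critical point
-/

set_option autoImplicit false

namespace Pool.Agent.TH609.Z

open Filter Topology Metric Set MeasureTheory
open Pool.Agent.W711.HT
open Pool.Agent.W709.VC (Dv)
open Pool.Agent.W505.VC
open Pool.Agent.W583.HTP (ell cos_re cos_re_pos half_re two_mul_re two_cos_pos ld_cos ld_exp
  Dv_neg_one log_mul_of_pos log_div_of_pos arg_two_mul exp_im_ne ell_neg ell_add sin_re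
  norm_sin_le sin_eq_cos)
open scoped Real ComplexConjugate Interval

/-- the strip `|Re v| < π` -/
def St : Set ℂ := {v | |v.re| < π}

lemma St_open : IsOpen St :=
  isOpen_lt (continuous_abs.comp Complex.continuous_re) continuous_const

lemma St_convex : Convex ℝ St := by
  intro x hx y hy a b ha hb hab
  have hx' : |x.re| < π := hx
  have hy' : |y.re| < π := hy
  rw [abs_lt] at hx' hy'
  change |(a • x + b • y).re| < π
  have e : (a • x + b • y).re = a * x.re + b * y.re := by simp
  rw [e, abs_lt]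
  rcases eq_or_lt_of_le ha with h | h
  · have hb1 : b = 1 := by linarith
    rw [← h, hb1]
    constructor <;> linarith
  · constructor <;> nlinarith

lemma zero_St : (0 : ℂ) ∈ St := by
  change |(0 : ℂ).re| < π
  simpa using Real.pi_pos

theorem ell_diff : DifferentiableOn ℂ ell St := by
  intro v hv
  have h1 := two_cos_pos hv
  have h2 : DifferentiableAt ℂ (fun v : ℂ => 2 * Complex.cos (v / 2)) v := by fun_prop
  exact (h2.clog (Or.inl h1)).differentiableWithinAt

theorem exists_prim : ∃ Λ : ℂ → ℂ, Λ 0 = 0 ∧ ∀ z ∈ St, HasDerivAt Λ (ell z) z :=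
  exists_prim_convex St_open St_convex zero_St ell_diff

lemma smul_St {v : ℂ} (hv : v ∈ St) {t : ℝ} (h0 : 0 ≤ t) (h1 : t ≤ 1) : (t : ℂ) * v ∈ St := by
  have hv' : |v.re| < π := hv
  change |((t : ℂ) * v).re| < π
  rw [Complex.re_ofReal_mul, abs_mul, abs_of_nonneg h0]
  have := abs_nonneg v.re
  nlinarith

lemma neg_St {v : ℂ} (hv : v ∈ St) : -v ∈ St := by
  have hv' : |v.re| < π := hv
  change |(-v).re| < π
  rwa [Complex.neg_re, abs_neg]

/-- `Dv (-e^(-iv)) = Re Λ(v) + Im v * arg cos (v / 2)` -/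
theorem dvE {Λ : ℂ → ℂ} (hΛ0 : Λ 0 = 0) (hΛ : ∀ z ∈ St, HasDerivAt Λ (ell z) z)
    {v : ℂ} (hv : v ∈ St) (hr : 0 < v.re) :
    Dv (-Complex.exp (-(Complex.I * v))) = (Λ v).re + v.im * (Complex.cos (v / 2)).arg := by
  have hpi := Real.pi_pos
  have hmem : ∀ t : ℝ, 0 ≤ t → t ≤ 1 → (t : ℂ) * v ∈ St := fun t h0 h1 => smul_St hv h0 h1
  have hcos : ∀ t : ℝ, 0 ≤ t → t ≤ 1 → 0 < (Complex.cos (t * v / 2)).re := by
    intro t h0 h1
    have := two_cos_pos (hmem t h0 h1)
    rw [two_mul_re] at this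
    linarith
  set h : ℝ → ℝ := fun t => Dv (-Complex.exp (t * (-(Complex.I * v)))) -
    ((Λ (t * v)).re + t * v.im * (Complex.cos (t * v / 2)).arg) with hh
  have hcont : ContinuousOn h (Icc 0 1) := by
    rw [hh]
    apply ContinuousOn.sub
    · apply Dv_cont.comp_continuousOn
      fun_prop
    · apply ContinuousOn.add
      · apply Complex.continuous_re.comp_continuousOn
        intro t ht
        have h1 : ContinuousAt Λ ((t : ℂ) * v) := (hΛ _ (hmem t ht.1 ht.2)).continuousAt
        have h2 : ContinuousAt (fun s : ℝ => (s : ℂ) * v) t := by fun_prop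
        exact (ContinuousAt.comp (f := fun s : ℝ => (s : ℂ) * v) h1 h2).continuousWithinAt
      · apply ContinuousOn.mul (by fun_prop)
        intro t ht
        have h1 : ContinuousAt Complex.arg (Complex.cos (t * v / 2)) :=
          Complex.continuousAt_arg (Or.inl (hcos t ht.1 ht.2))
        have h2 : ContinuousAt (fun s : ℝ => Complex.cos (s * v / 2)) t := by fun_prop
        exact (ContinuousAt.comp (f := fun s : ℝ => Complex.cos (s * v / 2)) h1
          h2).continuousWithinAt
  have hder : ∀ t ∈ Ioo (0:ℝ) 1, HasDerivAt h 0 t := by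
    intro t ht
    have hc := hcos t ht.1.le ht.2.le
    have hc0 : Complex.cos (t * v / 2) ≠ 0 := by
      intro h0; rw [h0] at hc; simp at hc
    obtain ⟨pc, hpc⟩ : ∃ pc : ℂ, pc = -(v / 2) * (Complex.sin (t * v / 2) / Complex.cos (t * v / 2)) :=
      ⟨_, rfl⟩
    have d1 := ld_cos hc0
    rw [← hpc] at d1
    -- the function `f`
    have df : LD (fun s : ℝ => -Complex.exp (s * (-(Complex.I * v)))) (-(Complex.I * v)) t := by
      have := (ld_exp (-(Complex.I * v)) t)
      unfold LD at this ⊢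
      refine this.neg.congr_deriv ?_
      ring
    -- `1 - f = 2 cos e^(-isv/2)`
    have dq : LD (fun s : ℝ => 1 - -Complex.exp (s * (-(Complex.I * v))))
        (0 + pc + -(Complex.I * v) / 2) t := by
      have h1 := ((LD.const 2 t).mul d1).mul (ld_exp (-(Complex.I * v) / 2) t)
      refine h1.congr (Eventually.of_forall fun s => ?_)
      simp only
      have e1 : Complex.cos (s * v / 2) =
          (Complex.exp (s * v / 2 * Complex.I) + Complex.exp (-(s * v / 2) * Complex.I)) / 2 := rfl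
      rw [e1]
      have e2 : 2 * ((Complex.exp (s * v / 2 * Complex.I) +
          Complex.exp (-(s * v / 2) * Complex.I)) / 2) *
          Complex.exp (s * (-(Complex.I * v) / 2)) =
          Complex.exp (s * v / 2 * Complex.I) * Complex.exp (s * (-(Complex.I * v) / 2)) +
          Complex.exp (-(s * v / 2) * Complex.I) * Complex.exp (s * (-(Complex.I * v) / 2)) := by
        ring
      rw [e2, ← Complex.exp_add, ← Complex.exp_add]
      have e3 : s * v / 2 * Complex.I + s * (-(Complex.I * v) / 2) = 0 := by ring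
      have e4 : -(s * v / 2) * Complex.I + s * (-(Complex.I * v) / 2) =
        s * (-(Complex.I * v)) := by ring
      rw [e3, e4, Complex.exp_zero]
      ring
    have hre : v.re < π := (abs_lt.1 (show |v.re| < π from hv)).2
    have d2 := df.dv dq (exp_im_ne ht.1 ht.2 hr hre)
    -- `Λ`
    have d3 : HasDerivAt (fun s : ℝ => (Λ (s * v)).re) (v * ell (t * v)).re t := by
      have h1 : HasDerivAt (fun s : ℝ => (s : ℂ) * v) v t := by
        have := (Complex.ofRealCLM.hasDerivAt (x := t)).mul_const v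
        simpa only [Complex.ofRealCLM_apply, Complex.ofReal_one, one_mul] using this
      have h2 := HasDerivAt.scomp t (hΛ _ (hmem t ht.1.le ht.2.le)) h1
      have h3 := Complex.reCLM.hasFDerivAt.comp_hasDerivAt t h2
      simpa only [Function.comp_def, Complex.reCLM_apply, smul_eq_mul] using h3
    -- the argument
    have d4 : HasDerivAt (fun s : ℝ => (Complex.cos (s * v / 2)).arg) pc.im t := by
      have h1 : HasDerivAt (fun s : ℝ => Complex.log (Complex.cos (s * v / 2)))
          (pc * Complex.cos (t * v / 2) / Complex.cos (t * v / 2)) t :=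
        HasDerivAt.clog_real d1 (Or.inl hc)
      rw [mul_div_cancel_right₀ _ hc0] at h1
      have h3 := Complex.imCLM.hasFDerivAt.comp_hasDerivAt t h1
      simpa only [Function.comp_def, Complex.imCLM_apply, Complex.log_im] using h3
    have d5 : HasDerivAt (fun s : ℝ => s * v.im * (Complex.cos (s * v / 2)).arg)
        (v.im * (Complex.cos (t * v / 2)).arg + t * v.im * pc.im) t := by
      have h1 : HasDerivAt (fun s : ℝ => s * v.im) v.im t := by
        simpa using (hasDerivAt_id t).mul_const v.im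
      exact h1.mul d4
    refine (d2.sub (d3.add d5)).congr_deriv ?_
    -- the algebra
    have n1 : Real.log ‖-Complex.exp (t * (-(Complex.I * v)))‖ = t * v.im := by
      rw [norm_neg, Complex.norm_exp, Real.log_exp, Complex.re_ofReal_mul, Complex.neg_re,
        Complex.I_mul_re]
      ring
    have n2 : Real.log ‖1 - -Complex.exp (t * (-(Complex.I * v)))‖ =
        Real.log ‖2 * Complex.cos (t * v / 2)‖ + t * v.im / 2 := by
      have e0 : 1 - -Complex.exp (t * (-(Complex.I * v))) =
          2 * Complex.cos (t * v / 2) * Complex.exp (t * (-(Complex.I * v) / 2)) := by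
        have e1 : Complex.cos (t * v / 2) =
          (Complex.exp (t * v / 2 * Complex.I) + Complex.exp (-(t * v / 2) * Complex.I)) / 2 := rfl
        rw [e1]
        have e2 : 2 * ((Complex.exp (t * v / 2 * Complex.I) +
            Complex.exp (-(t * v / 2) * Complex.I)) / 2) *
            Complex.exp (t * (-(Complex.I * v) / 2)) =
            Complex.exp (t * v / 2 * Complex.I) * Complex.exp (t * (-(Complex.I * v) / 2)) +
            Complex.exp (-(t * v / 2) * Complex.I) * Complex.exp (t * (-(Complex.I * v) / 2)) := by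
          ring
        rw [e2, ← Complex.exp_add, ← Complex.exp_add]
        have e3 : t * v / 2 * Complex.I + t * (-(Complex.I * v) / 2) = 0 := by ring
        have e4 : -(t * v / 2) * Complex.I + t * (-(Complex.I * v) / 2) =
          t * (-(Complex.I * v)) := by ring
        rw [e3, e4, Complex.exp_zero]
        ring
      have hn : ‖2 * Complex.cos (t * v / 2)‖ ≠ 0 :=
        norm_ne_zero_iff.2 (mul_ne_zero two_ne_zero hc0)
      rw [e0, norm_mul, Real.log_mul hn (Complex.norm_exp _ ▸ (Real.exp_pos _).ne'),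
        Complex.norm_exp, Real.log_exp, Complex.re_ofReal_mul, half_re, Complex.neg_re,
        Complex.I_mul_re]
      ring
    have n3 : (v * ell (t * v)).re = v.re * Real.log ‖2 * Complex.cos (t * v / 2)‖ -
        v.im * (Complex.cos (t * v / 2)).arg := by
      unfold ell
      rw [Complex.mul_re, Complex.log_re, Complex.log_im, arg_two_mul]
    have n4 : (-(Complex.I * v)).im = -v.re := by
      rw [Complex.neg_im, Complex.I_mul_im]
    have n5 : (0 + pc + -(Complex.I * v) / 2).im = pc.im - v.re / 2 := by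
      have : (-(Complex.I * v) / 2).im = -v.re / 2 := by
        have e : -(Complex.I * v) / 2 = -(Complex.I * v) / ((2 : ℝ) : ℂ) := by push_cast; rfl
        rw [e, Complex.div_ofReal_im, n4]
      rw [zero_add, Complex.add_im, this]
      ring
    rw [n1, n2, n3, n4, n5]
    ring
  obtain ⟨c, _, hc⟩ := exists_hasDerivAt_eq_slope h (fun _ => 0) one_pos hcont hder
  have h01 : h 1 = h 0 := by
    have : (h 1 - h 0) / (1 - 0) = 0 := hc.symm
    rw [sub_zero, div_one] at this
    linarith
  have h0 : h 0 = 0 := by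
    rw [hh]
    simp [hΛ0, Dv_neg_one]
  rw [h0, hh] at h01
  simp only [Complex.ofReal_one, one_mul] at h01
  linarith


/-! ### The function `rrF` -/

theorem hasDerivAt_path {Λ : ℂ → ℂ} (hΛ : ∀ z ∈ St, HasDerivAt Λ (ell z) z)
    (u w : ℂ) {t : ℝ} (ht : u * t + w ∈ St) :
    HasDerivAt (fun s : ℝ => Λ (u * s + w)) (u * ell (u * t + w)) t := by
  have h1 : HasDerivAt (fun s : ℂ => u * s + w) u (t : ℂ) := by
    simpa using ((hasDerivAt_id (t : ℂ)).const_mul u).add_const w
  have h2 := (HasDerivAt.comp (h := fun s : ℂ => u * s + w) (t : ℂ) (hΛ _ ht) h1).comp_ofReal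
  refine h2.congr_deriv ?_
  ring

theorem cont_path (u w : ℂ) (h : ∀ t ∈ Icc (0:ℝ) 1, u * t + w ∈ St) :
    ContinuousOn (fun s : ℝ => u * ell (u * s + w)) (Icc 0 1) := by
  apply ContinuousOn.mul continuousOn_const
  exact ell_diff.continuousOn.comp (by fun_prop) h

theorem odd_prim {Λ : ℂ → ℂ} (hΛ0 : Λ 0 = 0)
    (hΛ : ∀ z ∈ St, HasDerivAt Λ (ell z) z) {z : ℂ} (hz : z ∈ St) :
    Λ z + Λ (-z) = 0 := by
  have hmem : ∀ t ∈ Icc (0:ℝ) 1, z * t + 0 ∈ St := by
    intro t ht
    rw [add_zero, mul_comm]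
    exact smul_St hz ht.1 ht.2
  have hmem' : ∀ t ∈ Icc (0:ℝ) 1, -z * t + 0 ∈ St := by
    intro t ht
    rw [add_zero, mul_comm]
    exact smul_St (neg_St hz) ht.1 ht.2
  have hd : ∀ t ∈ uIcc (0:ℝ) 1, HasDerivAt (fun s : ℝ => Λ (z * s + 0) + Λ (-z * s + 0))
      ((fun _ : ℝ => (0 : ℂ)) t) t := by
    intro t ht
    rw [uIcc_of_le zero_le_one] at ht
    refine ((hasDerivAt_path hΛ z 0 (hmem t ht)).add
      (hasDerivAt_path hΛ (-z) 0 (hmem' t ht))).congr_deriv ?_
    have e : -z * (t : ℂ) + 0 = -(z * t + 0) := by ring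
    rw [e, ell_neg]
    ring
  have h := intervalIntegral.integral_eq_sub_of_hasDerivAt hd (by simp)
  simp only [intervalIntegral.integral_zero, Complex.ofReal_one, mul_one, add_zero,
    Complex.ofReal_zero, mul_zero, hΛ0, sub_zero] at h
  exact h.symm

/-- the region of the numbers `δ` -/
structure DR (δ : ℂ) : Prop where
  lo : 3 / 16 ≤ δ.re
  hi : δ.re ≤ 3 / 8
  im : |δ.im| ≤ 1 / 8

lemma DR.norm_le {δ : ℂ} (h : DR δ) : ‖δ‖ ≤ 1 / 2 := by
  have h1 := Complex.norm_le_abs_re_add_abs_im δ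
  have h2 : |δ.re| ≤ 3 / 8 := by
    rw [abs_of_nonneg (by linarith [h.lo])]
    exact h.hi
  linarith [h.im]

lemma u_re {δ : ℂ} : (2 * π * δ).re = 2 * π * δ.re := by
  have e : 2 * π * δ = ((2 * π : ℝ) : ℂ) * δ := by push_cast; ring
  rw [e, Complex.re_ofReal_mul]

lemma u_im {δ : ℂ} : (2 * π * δ).im = 2 * π * δ.im := by
  have e : 2 * π * δ = ((2 * π : ℝ) : ℂ) * δ := by push_cast; ring
  rw [e, Complex.im_ofReal_mul]

theorem mem_path {δ w : ℂ} (hδ : DR δ) (hw : |w.re| ≤ 1 / 4) {t : ℝ}
    (ht : t ∈ Icc (0:ℝ) 1) : 2 * π * δ * t + w ∈ St := by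
  change |(2 * π * δ * t + w).re| < π
  rw [Complex.add_re, Complex.re_mul_ofReal, u_re]
  have hpi := Real.pi_gt_three
  have h1 := hδ.lo
  have h2 := hδ.hi
  rw [abs_le] at hw
  have h3 : 0 ≤ δ.re * t := mul_nonneg (by linarith) ht.1
  have h4 : δ.re * t ≤ 3 / 8 := by nlinarith [ht.1, ht.2]
  have h5 : 2 * π * δ.re * t = 2 * π * (δ.re * t) := by ring
  rw [h5, abs_lt]
  constructor
  · nlinarith
  · nlinarith

theorem rr_eq {Λ : ℂ → ℂ} (hΛ0 : Λ 0 = 0)
    (hΛ : ∀ z ∈ St, HasDerivAt Λ (ell z) z) {δ ψ : ℂ} (hδ : DR δ)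
    (hψ : |ψ.re| ≤ 1 / 4) :
    2 * π * rrF δ ψ = Λ (2 * π * δ + ψ) + Λ (2 * π * δ - ψ) := by
  have hψ' : |(-ψ).re| ≤ 1 / 4 := by rwa [Complex.neg_re, abs_neg]
  have h1' : ∀ t ∈ Icc (0:ℝ) 1, 2 * π * δ * t + ψ ∈ St := fun t ht => mem_path hδ hψ ht
  have h2' : ∀ t ∈ Icc (0:ℝ) 1, 2 * π * δ * t + -ψ ∈ St := fun t ht => mem_path hδ hψ' ht
  obtain ⟨u, hu⟩ : ∃ u : ℂ, u = 2 * π * δ := ⟨_, rfl⟩
  rw [← hu] at h1' h2'
  have h1 := h1'
  have h2 := h2'
  have hd : ∀ t ∈ uIcc (0:ℝ) 1, HasDerivAt (fun s : ℝ => Λ (u * s + ψ) + Λ (u * s + -ψ))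
      (u * ell (u * t + ψ) + u * ell (u * t + -ψ)) t := by
    intro t ht
    rw [uIcc_of_le zero_le_one] at ht
    exact (hasDerivAt_path hΛ u ψ (h1 t ht)).add (hasDerivAt_path hΛ u (-ψ) (h2 t ht))
  have hi : IntervalIntegrable (fun t : ℝ => u * ell (u * t + ψ) + u * ell (u * t + -ψ))
      volume 0 1 := by
    apply ContinuousOn.intervalIntegrable
    rw [uIcc_of_le zero_le_one]
    exact (cont_path u ψ h1).add (cont_path u (-ψ) h2)
  have h := intervalIntegral.integral_eq_sub_of_hasDerivAt hd hi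
  have hodd : Λ ψ + Λ (-ψ) = 0 := by
    apply odd_prim hΛ0 hΛ
    change |ψ.re| < π
    have := Real.pi_gt_three
    linarith
  simp only [Complex.ofReal_one, mul_one, Complex.ofReal_zero, mul_zero, zero_add, hodd,
    sub_zero] at h
  rw [← hu, sub_eq_add_neg, ← h]
  unfold rrF
  rw [← mul_assoc, ← hu, ← intervalIntegral.integral_const_mul]
  apply intervalIntegral.integral_congr
  intro t ht
  rw [uIcc_of_le zero_le_one] at ht
  simp only
  have h3 := ell_add (θ := u * t) (ψ := ψ) (h1 t ht)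
    (by rw [sub_eq_add_neg]; exact h2 t ht)
  rw [sub_eq_add_neg] at h3
  rw [← h3, mul_add]

/-! ### The function `ssF` -/

theorem sin_lower {δ : ℂ} (hδ : DR δ) {t : ℝ} (h0 : 0 ≤ t) (h1 : t ≤ 1) :
    t * (3 / 4) ≤ (2 * Complex.sin (π * δ * t)).re := by
  have d1 := hδ.lo
  have d2 := hδ.hi
  have e : (2 * Complex.sin (π * δ * t)).re =
      2 * (Real.sin (π * δ.re * t) * Real.cosh (π * δ.im * t)) := by
    rw [two_mul_re, sin_re, Complex.re_mul_ofReal, Complex.im_mul_ofReal, Complex.re_ofReal_mul,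
      Complex.im_ofReal_mul]
  rw [e]
  have hpi := Real.pi_pos
  have hx : π * δ.re * t ≤ π / 2 := by nlinarith [mul_nonneg hpi.le h0]
  have h2 := Real.mul_le_sin (x := π * δ.re * t) (by positivity) hx
  have h3 := Real.one_le_cosh (π * δ.im * t)
  have h4 : 2 / π * (π * δ.re * t) = 2 * δ.re * t := by field_simp
  rw [h4] at h2
  have h5 : 0 ≤ Real.sin (π * δ.re * t) := le_trans (by positivity) h2
  nlinarith

theorem log_bound {δ : ℂ} (hδ : DR δ) {t : ℝ} (ht : 0 < t) (ht1 : t ≤ 1) :
    ‖Complex.log (2 * Complex.sin (π * δ * t))‖ ≤ 11 + |Real.log t| := by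
  have d3 := hδ.norm_le
  have g2 : t * (3 / 4) ≤ ‖2 * Complex.sin (π * δ * t)‖ :=
    (sin_lower hδ ht.le ht1).trans (Complex.re_le_norm _)
  have g3 : ‖2 * Complex.sin (π * δ * t)‖ ≤ 2 * Real.exp 2 := by
    rw [norm_mul, Complex.norm_ofNat]
    have h1 := norm_sin_le (π * δ * t)
    have h2 : ‖(π : ℂ) * δ * t‖ ≤ 2 := by
      rw [norm_mul, norm_mul, Complex.norm_real, Complex.norm_real, Real.norm_eq_abs,
        Real.norm_eq_abs, abs_of_pos Real.pi_pos, abs_of_pos ht]
      have h3 : π * ‖δ‖ ≤ 2 := by nlinarith [Real.pi_lt_d2, Real.pi_pos, norm_nonneg δ]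
      have h4 : 0 ≤ π * ‖δ‖ := by positivity
      nlinarith
    have h3 := Real.exp_le_exp.2 h2
    linarith
  obtain ⟨q, hq⟩ : ∃ q, q = 2 * Complex.sin (π * δ * t) := ⟨_, rfl⟩
  rw [← hq] at g2 g3 ⊢
  have hq0 : 0 < ‖q‖ := lt_of_lt_of_le (by positivity) g2
  have h4 : Complex.log q = (Real.log ‖q‖ : ℂ) + Complex.arg q * Complex.I := rfl
  rw [h4]
  have h5 := norm_add_le (Real.log ‖q‖ : ℂ) (Complex.arg q * Complex.I)
  rw [norm_mul, Complex.norm_I, mul_one, Complex.norm_real, Complex.norm_real, Real.norm_eq_abs,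
    Real.norm_eq_abs] at h5
  have h6 := Complex.abs_arg_le_pi q
  have h8 := Real.pi_lt_d2
  have h9 : |Real.log ‖q‖| ≤ 4 + |Real.log t| := by
    rw [abs_le]
    constructor
    · have k1 := Real.log_le_log (by positivity) g2
      rw [Real.log_mul ht.ne' (by norm_num)] at k1
      have k2 := Real.one_sub_inv_le_log_of_pos (by norm_num : (0:ℝ) < 3 / 4)
      norm_num at k2
      have k3 := neg_abs_le (Real.log t)
      linarith
    · have k1 := Real.log_le_log hq0 g3
      rw [Real.log_mul (by norm_num) (Real.exp_pos 2).ne', Real.log_exp] at k1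
      have k2 := Real.log_le_sub_one_of_pos (by norm_num : (0:ℝ) < 2)
      have k3 := abs_nonneg (Real.log t)
      linarith
  linarith

theorem log_cont {δ : ℂ} (hδ : DR δ) :
    ContinuousOn (fun t : ℝ => Complex.log (2 * Complex.sin (π * δ * t))) (Ioc 0 1) := by
  apply ContinuousOn.clog (by fun_prop)
  intro t ht
  left
  have := sin_lower hδ ht.1.le ht.2
  have := ht.1
  linarith

theorem log_int {δ : ℂ} (hδ : DR δ) :
    IntervalIntegrable (fun t : ℝ => Complex.log (2 * Complex.sin (π * δ * t))) volume 0 1 := by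
  have hg : IntervalIntegrable (fun t : ℝ => 11 + |Real.log t|) volume 0 1 :=
    intervalIntegrable_const.add intervalIntegral.intervalIntegrable_log'.abs
  refine hg.mono_fun' ?_ ?_
  · rw [Set.uIoc_of_le zero_le_one]
    exact (log_cont hδ).aestronglyMeasurable measurableSet_Ioc
  · rw [Set.uIoc_of_le zero_le_one]
    refine (ae_restrict_iff' measurableSet_Ioc).2 (ae_of_all _ fun t ht => ?_)
    exact log_bound hδ ht.1 ht.2

theorem mem_pi_sub {δ : ℂ} (hδ : DR δ) {t : ℝ} (ht : 0 < t) (ht1 : t ≤ 1) :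
    -(2 * π * δ) * t + π ∈ St ∧ 0 < (-(2 * π * δ) * t + π).re := by
  have d1 := hδ.lo
  have d2 := hδ.hi
  have hpi := Real.pi_pos
  have hre : (-(2 * π * δ) * t + π).re = π - 2 * π * δ.re * t := by
    have e : -(2 * π * δ) * t + π = ((-(2 * π * t) : ℝ) : ℂ) * δ + ((π : ℝ) : ℂ) := by
      push_cast; ring
    rw [e, Complex.add_re, Complex.re_ofReal_mul, Complex.ofReal_re]
    ring
  have h1 : 0 < δ.re * t := mul_pos (by linarith) ht
  have h2 : δ.re * t ≤ 3 / 8 := by nlinarith
  have h3 : 2 * π * δ.re * t = 2 * π * (δ.re * t) := by ring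
  constructor
  · change |(-(2 * π * δ) * t + π).re| < π
    rw [hre, h3, abs_lt]
    constructor <;> nlinarith
  · rw [hre, h3]
    nlinarith

theorem ss_eq {δ : ℂ} (hδ : DR δ) :
    -(2 * π * (ssF δ).re) = Dv (Complex.exp (Complex.I * (2 * π * δ))) +
      (2 * π * δ).im * (Complex.sin (π * δ)).arg := by
  obtain ⟨Λ, hΛ0, hΛ⟩ := exists_prim
  obtain ⟨u, hu⟩ : ∃ u : ℂ, u = 2 * π * δ := ⟨_, rfl⟩
  have hpi := Real.pi_pos
  set F : ℝ → ℝ := fun t => -(Dv (Complex.exp (Complex.I * (u * t))) +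
    t * u.im * (Complex.sin (π * δ * t)).arg) with hF
  -- identity with `Λ`
  have hFL : ∀ t : ℝ, 0 < t → t ≤ 1 → F t = -(Λ (-u * t + π)).re := by
    intro t h0 h1
    obtain ⟨m1, m2⟩ := mem_pi_sub hδ h0 h1
    have h2 := dvE hΛ0 hΛ m1 m2
    rw [sin_eq_cos] at h2
    rw [← hu] at h2
    have e1 : -Complex.exp (-(Complex.I * (-u * t + π))) = Complex.exp (Complex.I * (u * t)) := by
      have e2 : -(Complex.I * (-u * t + π)) = Complex.I * (u * t) - π * Complex.I := by ring
      rw [e2, Complex.exp_sub, Complex.exp_pi_mul_I, div_neg, div_one, neg_neg]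
    have e3 : (-u * t + π).im = -(t * u.im) := by
      rw [Complex.add_im, Complex.im_mul_ofReal, Complex.neg_im, Complex.ofReal_im]
      ring
    rw [e1, e3] at h2
    have h3 : F t = -(Dv (Complex.exp (Complex.I * (u * t))) +
      t * u.im * (Complex.sin (π * δ * t)).arg) := rfl
    rw [h3, h2]
    ring
  have hcont : ContinuousOn F (Icc 0 1) := by
    intro t ht
    rcases eq_or_lt_of_le ht.1 with h0 | h0
    · -- at zero
      rw [← h0]
      apply ContinuousAt.continuousWithinAt
      rw [hF]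
      apply ContinuousAt.neg
      apply ContinuousAt.add
      · apply Dv_cont.continuousAt.comp
        fun_prop
      · rw [ContinuousAt]
        simp only [zero_mul]
        have hb : ∀ s : ℝ, |s * u.im * (Complex.sin (π * δ * s)).arg| ≤ |s * u.im| * π := by
          intro s
          rw [abs_mul]
          exact mul_le_mul_of_nonneg_left (Complex.abs_arg_le_pi _) (abs_nonneg _)
        have ht0 : Tendsto (fun s : ℝ => |s * u.im| * π) (𝓝 0) (𝓝 0) := by
          have : ContinuousAt (fun s : ℝ => |s * u.im| * π) 0 := by fun_prop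
          have h2 := this.tendsto
          simpa using h2
        exact squeeze_zero_norm hb ht0
    · rw [hF]
      apply ContinuousWithinAt.neg
      apply ContinuousWithinAt.add
      · apply ContinuousAt.continuousWithinAt
        apply Dv_cont.continuousAt.comp
        fun_prop
      · apply ContinuousAt.continuousWithinAt
        apply ContinuousAt.mul (by fun_prop)
        have h3 : 0 < (Complex.sin (π * δ * t)).re := by
          have := sin_lower hδ ht.1 ht.2
          rw [two_mul_re] at this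
          linarith
        have h4 : ContinuousAt Complex.arg (Complex.sin (π * δ * t)) :=
          Complex.continuousAt_arg (Or.inl h3)
        exact ContinuousAt.comp (f := fun s : ℝ => Complex.sin (π * δ * s)) h4 (by fun_prop)
  have hder : ∀ t ∈ Ioo (0:ℝ) 1, HasDerivAt F
      ((u * Complex.log (2 * Complex.sin (π * δ * t))).re) t := by
    intro t ht
    have m1 := (mem_pi_sub hδ ht.1 ht.2.le).1
    rw [← hu] at m1
    have d1 := hasDerivAt_path hΛ (-u) π m1
    have d2 : HasDerivAt (fun s : ℝ => -(Λ (-u * s + π)).re)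
        (-(-u * ell (-u * t + π)).re) t := by
      have h3 := Complex.reCLM.hasFDerivAt.comp_hasDerivAt t d1
      have h4 : HasDerivAt (fun s : ℝ => (Λ (-u * s + π)).re) ((-u * ell (-u * t + π)).re) t := by
        simpa only [Function.comp_def, Complex.reCLM_apply] using h3
      exact h4.neg
    have e1 : ell (-u * t + π) = Complex.log (2 * Complex.sin (π * δ * t)) := by
      unfold ell
      rw [hu, sin_eq_cos]
    rw [e1, neg_mul, Complex.neg_re, neg_neg] at d2
    refine d2.congr_of_eventuallyEq ?_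
    filter_upwards [Ioo_mem_nhds ht.1 ht.2] with s hs
    exact hFL s hs.1 hs.2.le
  have hint : IntervalIntegrable
      (fun t : ℝ => (u * Complex.log (2 * Complex.sin (π * δ * t))).re) volume 0 1 := by
    have h1 := (log_int hδ).const_mul u
    exact ⟨Complex.reCLM.integrable_comp h1.1, Complex.reCLM.integrable_comp h1.2⟩
  have hftc := intervalIntegral.integral_eq_sub_of_hasDerivAt_of_le zero_le_one hcont hder hint
  have hre : ∫ t in (0:ℝ)..1, (u * Complex.log (2 * Complex.sin (π * δ * t))).re =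
      2 * π * (ssF δ).re := by
    have h1 := (log_int hδ).const_mul u
    have h2 := Complex.reCLM.intervalIntegral_comp_comm h1
    simp only [Complex.reCLM_apply] at h2
    rw [h2, intervalIntegral.integral_const_mul]
    unfold ssF
    have e : u * ∫ t in (0:ℝ)..1, Complex.log (2 * Complex.sin (π * δ * t)) =
        ((2 * π : ℝ) : ℂ) * (δ * ∫ t in (0:ℝ)..1, Complex.log (2 * Complex.sin (π * δ * t))) := by
      rw [hu]
      push_cast
      ring
    rw [e, Complex.re_ofReal_mul]
  rw [← hre, hftc, hF, ← hu]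
  have hD1 : Dv (Complex.exp (Complex.I * (u * (0:ℝ)))) = 0 := by
    rw [Complex.ofReal_zero, mul_zero, mul_zero, Complex.exp_zero, Dv_one]
  simp only [hD1, zero_mul, add_zero, neg_zero, sub_zero, Complex.ofReal_one, mul_one, one_mul]
  ring

/-- the potential at a hinge -/
theorem poth {δ ψ : ℂ} (hδ : DR δ) (hψ : |ψ.re| ≤ 1 / 4) :
    2 * π * (rrF δ ψ).re - ψ.im * (Lg (2 * π * δ) ψ).im + (2 * π * δ).im *
      (Complex.log (2 * Complex.cos ψ + 2 * Complex.cos (2 * π * δ))).im =
      Dv (-Complex.exp (Complex.I * (ψ - 2 * π * δ))) +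
        Dv (-Complex.exp (-(Complex.I * (2 * π * δ + ψ)))) ∧
    -(2 * π * (ssF δ).re) = Dv (Complex.exp (Complex.I * (2 * π * δ))) +
      (2 * π * δ).im * (Complex.log (2 * Complex.sin (π * δ))).im := by
  obtain ⟨Λ, hΛ0, hΛ⟩ := exists_prim
  have d1 := hδ.lo
  have hpi := Real.pi_gt_three
  have hpi' := Real.pi_pos
  have hψ' : |(-ψ).re| ≤ 1 / 4 := by rwa [Complex.neg_re, abs_neg]
  have m1' := mem_path hδ hψ (t := 1) ⟨zero_le_one, le_rfl⟩
  have m2' := mem_path hδ hψ' (t := 1) ⟨zero_le_one, le_rfl⟩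
  rw [Complex.ofReal_one, mul_one] at m1' m2'
  rw [← sub_eq_add_neg] at m2'
  have hure' : 3 * π / 8 ≤ (2 * π * δ).re := by
    rw [u_re]
    nlinarith
  have hrr := rr_eq hΛ0 hΛ hδ hψ
  obtain ⟨u, hu⟩ : ∃ u : ℂ, u = 2 * π * δ := ⟨_, rfl⟩
  rw [← hu] at m1' m2' hure' hrr
  rw [abs_le] at hψ
  have m1 := m1'
  have m2 := m2'
  have hure := hure'
  have r1 : 0 < (u + ψ).re := by
    rw [Complex.add_re]; linarith [hψ.1]
  have r2 : 0 < (u - ψ).re := by
    rw [Complex.sub_re]; linarith [hψ.2]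
  have c1 : 0 < (Complex.cos ((u + ψ) / 2)).re := by
    have := two_cos_pos m1
    rw [two_mul_re] at this
    linarith
  have c2 : 0 < (Complex.cos ((u - ψ) / 2)).re := by
    have := two_cos_pos m2
    rw [two_mul_re] at this
    linarith
  have hE1 := dvE hΛ0 hΛ m1 r1
  have hE2 := dvE hΛ0 hΛ m2 r2
  constructor
  · rw [← hu]
    have hrr' : 2 * π * (rrF δ ψ).re = (Λ (u + ψ)).re + (Λ (u - ψ)).re := by
      have h := congrArg Complex.re hrr
      have e : 2 * π * rrF δ ψ = ((2 * π : ℝ) : ℂ) * rrF δ ψ := by push_cast; ring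
      rw [e, Complex.re_ofReal_mul, Complex.add_re] at h
      exact h
    have hLg : (Lg u ψ).im = (Complex.cos ((u - ψ) / 2)).arg - (Complex.cos ((u + ψ) / 2)).arg := by
      unfold Lg
      exact log_div_of_pos c2 c1
    have hlog : (Complex.log (2 * Complex.cos ψ + 2 * Complex.cos u)).im =
        (Complex.cos ((u + ψ) / 2)).arg + (Complex.cos ((u - ψ) / 2)).arg := by
      rw [← ell_add m1 m2]
      unfold ell
      rw [Complex.add_im, Complex.log_im, Complex.log_im, arg_two_mul, arg_two_mul]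
    have e1 : Complex.I * (ψ - u) = -(Complex.I * (u - ψ)) := by ring
    rw [e1, hE1, hE2, hrr', hLg, hlog, Complex.add_im, Complex.sub_im]
    ring
  · rw [ss_eq hδ, Complex.log_im, arg_two_mul]

end Pool.Agent.TH609.Z
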