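import Pool.Agent.TH609.Z.Hinge2
import Pool.Agent.TH609.Z.Poth
import Pool.Agent.TH563.Z.Stm

/-!
# The base point of the hinges at a hub of weight zero
-/

set_option autoImplicit false

namespace Pool.Agent.TH609.Z

open Filter Topology Metric
open Pool.Agent.TH563.Z
open Pool.Agent.W711.HT hiding XX
open Pool.Agent.W719.AR (Fl flS)
open Pool.Agent.W864.AR (t1 t2)
open Pool.Agent.W583.HTP (log_div_of_pos cos_re_pos)
open Pool.Agent.TH609.UV (HQ hq_symm nr Lg_bound)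
open scoped Real

/-- the hinges near `(0, 0)` -/
lemma sg_of_hq {ψ ψ' u : ℂ} (h : HQ ψ ψ' u) : SG ψ u := by
  have hn := nr h
  have h1 := Pool.Agent.W864.AR.re1 hn
  have h2 := Pool.Agent.W864.AR.re2 hn
  have h3 := Pool.Agent.W864.AR.re3 hn
  refine ⟨h1.2, h2.2, h2.1, h3, ?_, ?_, ?_⟩
  · have h4 := Complex.abs_re_le_norm (t2 (ex u) (ex ψ) - (1 + Complex.I) / 2)
    have h5 : ‖t2 (ex u) (ex ψ) - (1 + Complex.I) / 2‖ ≤ 1 / 4 := Pool.Agent.W864.AR.near2 hn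
    rw [Complex.sub_re, Pool.Agent.W864.AR.half_re.1, abs_le] at h4
    linarith [h4.2]
  · have h2 := Lg_bound ψ ψ' u h
    have e : Lg u ψ = (Lg u ψ - ψ) + ψ := by ring
    have h3 : ‖Lg u ψ‖ ≤ 11 / 100 := by
      rw [e]
      have h4 := norm_add_le (Lg u ψ - ψ) ψ
      have := h.sm
      linarith
    have h4 := (Complex.abs_im_le_norm (Lg u ψ)).trans h3
    have := Real.pi_gt_three
    linarith
  · have h3 := (Complex.abs_re_le_norm ψ).trans h.sm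
    linarith

lemma hg_of_hq {ψ ψ' u : ℂ} (h : HQ ψ ψ' u) : HG ψ ψ' u :=
  ⟨sg_of_hq h, sg_of_hq (hq_symm h), Pool.Agent.TH609.UV.den h, h.eq⟩

/-! ### The conditions are open -/

lemma lg_lt {ψ u : ℂ} (hm : |(u - ψ).re| < π) (hp : |(u + ψ).re| < π) : |(Lg u ψ).im| < π := by
  have e (v : ℂ) (hv : |v.re| < π) : |(v / 2).re| < π / 2 := by
    rw [Pool.Agent.W583.HTP.half_re, abs_div, abs_of_pos (by norm_num : (0:ℝ) < 2)]
    linarith
  have h1 := cos_re_pos (e _ hm)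
  have h2 := cos_re_pos (e _ hp)
  have h3 := Complex.abs_arg_lt_pi_div_two_iff.2 (Or.inl h1)
  have h4 := Complex.abs_arg_lt_pi_div_two_iff.2 (Or.inl h2)
  unfold Lg
  rw [log_div_of_pos h1 h2]
  rw [abs_lt] at h3 h4 ⊢
  constructor <;> linarith

/-- the conditions at one side of a hinge are open -/
theorem sg_open {ψ₀ u₀ : ℂ} (im1 : 0 < (t1 (ex u₀) (ex ψ₀)).im) (im2 : 0 < (t2 (ex u₀) (ex ψ₀)).im)
    (re2 : 0 < (t2 (ex u₀) (ex ψ₀)).re) (re3 : 0 < (t2 (ex u₀) (ex ψ₀) / ex ψ₀).re)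
    (re4 : (t2 (ex u₀) (ex ψ₀)).re < 1) (hm : |(u₀ - ψ₀).re| < π) (hp : |(u₀ + ψ₀).re| < π)
    (hr : |ψ₀.re| < 1 / 4) : ∀ᶠ p : ℂ × ℂ in 𝓝 (ψ₀, u₀), SG p.1 p.2 := by
  have n1 : 1 + ex u₀ * ex ψ₀ ≠ 0 := by
    intro h0
    rw [t1, h0, div_zero] at im1
    simp at im1
  have n2 : ex u₀ * (1 + ex ψ₀) ≠ 0 := by
    intro h0
    rw [t2, h0, div_zero] at im2
    simp at im2
  have n3 : ex ψ₀ ≠ 0 := Complex.exp_ne_zero _
  have c1 : ContinuousAt (fun p : ℂ × ℂ => t1 (ex p.2) (ex p.1)) (ψ₀, u₀) := by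
    unfold t1 ex
    apply ContinuousAt.div
    · fun_prop
    · fun_prop
    · exact n1
  have c2 : ContinuousAt (fun p : ℂ × ℂ => t2 (ex p.2) (ex p.1)) (ψ₀, u₀) := by
    unfold t2 ex
    apply ContinuousAt.div
    · fun_prop
    · fun_prop
    · exact n2
  have c3 : ContinuousAt (fun p : ℂ × ℂ => t2 (ex p.2) (ex p.1) / ex p.1) (ψ₀, u₀) := by
    apply c2.div
    · unfold ex
      fun_prop
    · exact n3
  have d1 := (Complex.continuous_im.continuousAt.comp c1).eventually_const_lt im1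
  have d2 := (Complex.continuous_im.continuousAt.comp c2).eventually_const_lt im2
  have d3 := (Complex.continuous_re.continuousAt.comp c2).eventually_const_lt re2
  have d4 := (Complex.continuous_re.continuousAt.comp c3).eventually_const_lt re3
  have d5 := (Complex.continuous_re.continuousAt.comp c2).eventually_lt_const re4
  have d6 : ∀ᶠ p : ℂ × ℂ in 𝓝 (ψ₀, u₀), |(p.2 - p.1).re| < π := by
    have : ContinuousAt (fun p : ℂ × ℂ => |(p.2 - p.1).re|) (ψ₀, u₀) := by fun_prop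
    exact this.eventually_lt_const hm
  have d7 : ∀ᶠ p : ℂ × ℂ in 𝓝 (ψ₀, u₀), |(p.2 + p.1).re| < π := by
    have : ContinuousAt (fun p : ℂ × ℂ => |(p.2 + p.1).re|) (ψ₀, u₀) := by fun_prop
    exact this.eventually_lt_const hp
  have d8 : ∀ᶠ p : ℂ × ℂ in 𝓝 (ψ₀, u₀), |p.1.re| < 1 / 4 := by
    have : ContinuousAt (fun p : ℂ × ℂ => |p.1.re|) (ψ₀, u₀) := by fun_prop
    exact this.eventually_lt_const hr
  filter_upwards [d1, d2, d3, d4, d5, d6, d7, d8] with p e1 e2 e3 e4 e5 e6 e7 e8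
  exact ⟨e1, e2, e3, e4, e5, lg_lt e6 e7, e8.le⟩

/-! ### The base point -/

lemma base_sg {k u₀ : ℝ} {ψ₀ : ℂ} (hk0 : 0 < k) (hk1 : k ≤ 1) (hψ : ex ψ₀ = (k : ℂ))
    (hre : ψ₀.re = 0) (hu0 : 0 < u₀) (hu1 : u₀ < π) :
    ∀ᶠ p : ℂ × ℂ in 𝓝 (ψ₀, (u₀ : ℂ)), SG p.1 p.2 := by
  have hs := Real.sin_pos_of_pos_of_lt_pi hu0 hu1
  have hsq := Real.sin_sq_add_cos_sq u₀
  have hX : ex (u₀ : ℂ) = (Real.cos u₀ : ℂ) + (Real.sin u₀ : ℂ) * Complex.I := by
    rw [ex, mul_comm, Complex.exp_mul_I, Complex.ofReal_cos, Complex.ofReal_sin]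
  obtain ⟨c, hc⟩ : ∃ c : ℝ, c = Real.cos u₀ := ⟨_, rfl⟩
  obtain ⟨s, hs'⟩ : ∃ s : ℝ, s = Real.sin u₀ := ⟨_, rfl⟩
  rw [← hc, ← hs'] at hX
  rw [← hc, ← hs'] at hsq
  rw [← hs'] at hs
  have hc1 : -1 < c := by nlinarith
  have hc2 : c < 1 := by nlinarith
  have hsqC : (s : ℂ) ^ 2 + (c : ℂ) ^ 2 = 1 := by exact_mod_cast hsq
  have hI : Complex.I ^ 2 = -1 := Complex.I_sq
  have hkk : 0 < 1 + k := by linarith
  have n1 : 0 < (1 + k * c) ^ 2 + (k * s) ^ 2 := by positivity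
  have n1C : (((1 + k * c) ^ 2 + (k * s) ^ 2 : ℝ) : ℂ) ≠ 0 := by exact_mod_cast n1.ne'
  have e0 : 1 + ex (u₀ : ℂ) * ex ψ₀ ≠ 0 := by
    rw [hX, hψ]
    intro h0
    have := congrArg Complex.im h0
    simp at this
    rcases this with h | h
    · linarith
    · linarith
  have e1 : t1 (ex (u₀ : ℂ)) (ex ψ₀) =
      (((1 + k) * (c + k) / ((1 + k * c) ^ 2 + (k * s) ^ 2) : ℝ) : ℂ) +
      (((1 + k) * s / ((1 + k * c) ^ 2 + (k * s) ^ 2) : ℝ) : ℂ) * Complex.I := by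
    have e4 : (((1 + k) * (c + k) / ((1 + k * c) ^ 2 + (k * s) ^ 2) : ℝ) : ℂ) +
        (((1 + k) * s / ((1 + k * c) ^ 2 + (k * s) ^ 2) : ℝ) : ℂ) * Complex.I =
        (1 + k) * ((c + k) + s * Complex.I) / (((1 + k * c) ^ 2 + (k * s) ^ 2 : ℝ) : ℂ) := by
      push_cast
      ring
    rw [e4, t1, div_eq_div_iff e0 n1C, hX, hψ]
    push_cast
    linear_combination (1 + (k : ℂ)) * ((k + (c + s * Complex.I) * k ^ 2) * hsqC - k * s ^ 2 * hI)
  have e2 : t2 (ex (u₀ : ℂ)) (ex ψ₀) =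
      (((1 - c) * (k / (1 + k)) : ℝ) : ℂ) + ((s * (k / (1 + k)) : ℝ) : ℂ) * Complex.I := by
    have hk1C : (1 : ℂ) + k ≠ 0 := by exact_mod_cast hkk.ne'
    have hX0 : ex (u₀ : ℂ) ≠ 0 := Complex.exp_ne_zero _
    rw [t2, div_eq_iff (mul_ne_zero hX0 (by rw [hψ]; exact hk1C)), hX, hψ]
    push_cast
    field_simp
    linear_combination (-(s : ℂ) ^ 2 * k) * hI + k * hsqC
  have e3 : t2 (ex (u₀ : ℂ)) (ex ψ₀) / ex ψ₀ =
      (((1 - c) * (1 / (1 + k)) : ℝ) : ℂ) + ((s * (1 / (1 + k)) : ℝ) : ℂ) * Complex.I := by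
    have hkC : (k : ℂ) ≠ 0 := by exact_mod_cast hk0.ne'
    have hk1C : (1 : ℂ) + k ≠ 0 := by exact_mod_cast hkk.ne'
    rw [e2, hψ]
    push_cast
    field_simp
  apply sg_open
  · rw [e1]
    simp only [Complex.add_im, Complex.ofReal_im, Complex.im_ofReal_mul, Complex.I_im, zero_add,
      mul_one]
    positivity
  · rw [e2]
    simp only [Complex.add_im, Complex.ofReal_im, Complex.im_ofReal_mul, Complex.I_im, zero_add,
      mul_one]
    positivity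
  · rw [e2]
    simp only [Complex.add_re, Complex.ofReal_re, Complex.re_ofReal_mul, Complex.I_re, mul_zero,
      add_zero]
    exact mul_pos (by linarith) (div_pos hk0 hkk)
  · rw [e3]
    simp only [Complex.add_re, Complex.ofReal_re, Complex.re_ofReal_mul, Complex.I_re, mul_zero,
      add_zero]
    exact mul_pos (by linarith) (div_pos one_pos hkk)
  · rw [e2]
    simp only [Complex.add_re, Complex.ofReal_re, Complex.re_ofReal_mul, Complex.I_re, mul_zero,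
      add_zero]
    have h1 : k / (1 + k) ≤ 1 / 2 := by
      rw [div_le_div_iff₀ hkk two_pos]
      linarith
    have h2 : 0 < k / (1 + k) := div_pos hk0 hkk
    nlinarith
  · rw [Complex.sub_re, Complex.ofReal_re, hre, abs_lt]
    constructor <;> linarith
  · rw [Complex.add_re, Complex.ofReal_re, hre, abs_lt]
    constructor <;> linarith
  · rw [hre]
    norm_num

/-- `1 / 4 ≤ δ₀ < 3 / 8` -/
lemma dz_bd {η : ℝ} (h : Adm η) : 1 / 4 ≤ dz η ∧ dz η < 3 / 8 := by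
  obtain ⟨h0, h2⟩ := h
  have hT : 1 < Real.cosh (η / 2) := Real.one_lt_cosh.2 (by linarith)
  have hc : Real.cosh η = 2 * Real.cosh (η / 2) ^ 2 - 1 := by
    have h1 := Real.cosh_two_mul (η / 2)
    have h2 := Real.cosh_sq (η / 2)
    rw [mul_div_cancel₀ η two_ne_zero] at h1
    rw [h1]
    linarith
  have hc7 : Real.cosh η ≤ 7 := by rw [hc]; nlinarith
  have hc1 : 1 < Real.cosh η := by rw [hc]; nlinarith
  have hden : 0 < 3 + Real.cosh η := by linarith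
  have x0 : (1 - Real.cosh η) / (3 + Real.cosh η) ≤ 0 :=
    div_nonpos_of_nonpos_of_nonneg (by linarith) hden.le
  have x1 : -(3 / 5) ≤ (1 - Real.cosh η) / (3 + Real.cosh η) := by
    rw [le_div_iff₀ hden]
    linarith
  have hpi := Real.pi_pos
  unfold dz
  constructor
  · rw [le_div_iff₀ (by positivity)]
    have := Real.arccos_le_arccos x0
    rw [Real.arccos_zero] at this
    linarith
  · rw [div_lt_iff₀ (by positivity)]
    by_contra hcon
    push Not at hcon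
    have h3 : 3 * π / 4 ≤ Real.arccos ((1 - Real.cosh η) / (3 + Real.cosh η)) := by linarith
    have h4 := Real.cos_le_cos_of_nonneg_of_le_pi (by positivity) (Real.arccos_le_pi _) h3
    rw [Real.cos_arccos (by linarith) (by linarith)] at h4
    have h5 : Real.cos (3 * π / 4) = -(√2 / 2) := by
      have : 3 * π / 4 = π - π / 4 := by ring
      rw [this, Real.cos_pi_sub, Real.cos_pi_div_four]
    rw [h5] at h4
    have h6 : (1.41 : ℝ) ≤ √2 := Real.le_sqrt_of_sq_le (by norm_num)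
    linarith

/-- all conditions hold near the base point -/
theorem near_base {η : ℝ} (h : Adm η) : ∃ g : ℝ, 0 < g ∧ ∀ ψ φ δ : ℂ, ‖ψ‖ ≤ g →
    ‖φ - η * Complex.I‖ ≤ g → ‖δ - dz η‖ ≤ g →
    DR δ ∧ |ψ.re| ≤ 1 / 4 ∧ |φ.re| ≤ 1 / 4 ∧ (Complex.cos (2 * π * δ) =
      (1 - Complex.cos ψ * Complex.cos φ) / (2 + Complex.cos ψ + Complex.cos φ) →
      HG ψ φ (2 * π * δ)) := by
  obtain ⟨b1, b2⟩ := dz_bd h
  have hpi := Real.pi_pos
  have hu0 : 0 < 2 * π * dz η := by positivity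
  have hu1 : 2 * π * dz η < π := by nlinarith
  have s1 := base_sg (k := 1) (ψ₀ := 0) one_pos le_rfl (by simp [ex]) (by simp) hu0 hu1
  have s2 := base_sg (k := Real.exp (-η)) (ψ₀ := η * Complex.I) (Real.exp_pos _)
    (by rw [Real.exp_le_one_iff]; linarith [h.1])
    (by
      rw [ex, Complex.ofReal_exp]
      congr 1
      push_cast
      linear_combination (η : ℂ) * Complex.I_sq) (by simp) hu0 hu1
  have ec : (((2 * π * dz η : ℝ)) : ℂ) = 2 * π * ((dz η : ℝ) : ℂ) := by push_cast; ring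
  rw [ec] at s1 s2
  -- pull back to `(ψ, φ, δ)`
  have t1 : ContinuousAt (fun p : ℂ × ℂ × ℂ => (p.1, 2 * π * p.2.2))
    ((0 : ℂ), η * Complex.I, ((dz η : ℝ) : ℂ)) := by fun_prop
  have t2 : ContinuousAt (fun p : ℂ × ℂ × ℂ => (p.2.1, 2 * π * p.2.2))
    ((0 : ℂ), η * Complex.I, ((dz η : ℝ) : ℂ)) := by fun_prop
  have v1 := t1.eventually s1
  have v2 := t2.eventually s2
  have v3 : ∀ᶠ p : ℂ × ℂ × ℂ in 𝓝 ((0 : ℂ), η * Complex.I, ((dz η : ℝ) : ℂ)),
      2 + Complex.cos p.1 + Complex.cos p.2.1 ≠ 0 := by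
    have c1 : ContinuousAt (fun p : ℂ × ℂ × ℂ => 2 + Complex.cos p.1 + Complex.cos p.2.1)
      ((0 : ℂ), η * Complex.I, ((dz η : ℝ) : ℂ)) := by fun_prop
    apply c1.eventually_ne
    simp only
    rw [Complex.cos_zero, Complex.cos_mul_I, ← Complex.ofReal_cosh]
    have h1 := Real.cosh_pos η
    have h2 : ((2 + 1 + Real.cosh η : ℝ) : ℂ) ≠ 0 := by
      exact_mod_cast (by positivity : (2 + 1 + Real.cosh η : ℝ) ≠ 0)
    push_cast at h2 ⊢
    exact h2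
  have v4 : ∀ᶠ p : ℂ × ℂ × ℂ in 𝓝 ((0 : ℂ), η * Complex.I, ((dz η : ℝ) : ℂ)), DR p.2.2 := by
    have c1 : ContinuousAt (fun p : ℂ × ℂ × ℂ => p.2.2.re)
      ((0 : ℂ), η * Complex.I, ((dz η : ℝ) : ℂ)) := by fun_prop
    have c2 : ContinuousAt (fun p : ℂ × ℂ × ℂ => |p.2.2.im|)
      ((0 : ℂ), η * Complex.I, ((dz η : ℝ) : ℂ)) := by fun_prop
    have w1 := c1.eventually_const_lt (u := 3 / 16) (by simp only [Complex.ofReal_re]; linarith)
    have w2 := c1.eventually_lt_const (u := 3 / 8) (by simp only [Complex.ofReal_re]; linarith)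
    have w3 := c2.eventually_lt_const (u := 1 / 8) (by simp)
    filter_upwards [w1, w2, w3] with p e1 e2 e3
    exact ⟨e1.le, e2.le, e3.le⟩
  obtain ⟨ε, hε, hb⟩ := Metric.eventually_nhds_iff.1 (((v1.and v2).and v3).and v4)
  refine ⟨ε / 2, by linarith, fun ψ φ δ h1 h2 h3 => ?_⟩
  have hd : dist (ψ, φ, δ) ((0 : ℂ), η * Complex.I, ((dz η : ℝ) : ℂ)) < ε := by
    rw [Prod.dist_eq, Prod.dist_eq]
    simp only [dist_eq_norm, sub_zero]
    rw [max_lt_iff, max_lt_iff]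
    exact ⟨by linarith, by linarith, by linarith⟩
  obtain ⟨⟨⟨k1, k2⟩, k3⟩, k4⟩ := hb hd
  exact ⟨k4, k1.re, k2.re, fun he => ⟨k1, k2, k3, he⟩⟩

end Pool.Agent.TH609.Z
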