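import Pool.Agent.TH609.Z.Hinge

/-!
# Hinges under open conditions: the volume and the equations for the moduli
-/

set_option autoImplicit false

namespace Pool.Agent.TH609.Z

open Pool.Agent.W711.HT hiding XX
open Pool.Agent.W719.AR (Fl flS)
open Pool.Agent.W737.AR (Lf ze TT edge_alg)
open Pool.Agent.W864.AR (t1 t2)
open Pool.Agent.W709.VC (Dv S_TET S_DSYM S_FIVE)
open Pool.Agent.W554.HT (tri ang_eq)
open Pool.Agent.TH609.UV (HQ fe be ga fe_vol log_cos)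
open scoped Real

/-- the volume at a hinge -/
theorem vlf {ψ ψ' u : ℂ} (h : HG ψ ψ' u) : 2 * ((fe ψ u).vol + (fe ψ' u).vol) = hv ψ ψ' u := by
  have hS : S_DSYM := W505.VC.dsym
  have hF : S_FIVE := W505.VC.five
  have hid : S_HID := W883.HT.Hid.main hS hF
  have h' := hg_symm h
  have hn := h.sd
  have hn' := h.sd'
  have hg1 := hinge h
  have hX : ex u ≠ 0 := Complex.exp_ne_zero _
  have hX1 := ne_X1 hn
  have hG : ex ψ ≠ 0 := Complex.exp_ne_zero _
  have hG1 := ne_G1 hn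
  have hXG := ne_XG hn
  have hXaG := ne_XaG hn
  have hK : ex ψ' ≠ 0 := Complex.exp_ne_zero _
  have hK1 := ne_G1 hn'
  have hXK := ne_XG hn'
  have hXaK := ne_XaG hn'
  rw [fe_vol, fe_vol]
  change 2 * (Dv (t1 (ex u) (ex ψ)) + Dv (t2 (ex u) (ex ψ)) + (Dv (t1 (ex u) (ex ψ')) +
    Dv (t2 (ex u) (ex ψ')))) = _
  have eE : hv ψ ψ' u = 4 * Dv (ex u) +
      Dv (-(ex ψ / ex u)) +
      Dv (-(1 / (ex u * ex ψ))) +
      Dv (-(ex ψ' / ex u)) +
      Dv (-(1 / (ex u * ex ψ'))) := by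
    unfold hv
    have e1 (z : ℂ) : -Complex.exp (Complex.I * (z - u)) =
        -(Complex.exp (Complex.I * z) / ex u) := by
      rw [mul_sub, Complex.exp_sub]
    have e2 (z : ℂ) : -Complex.exp (-(Complex.I * (u + z))) =
        -(1 / (ex u * Complex.exp (Complex.I * z))) := by
      rw [Complex.exp_neg, mul_add, Complex.exp_add, one_div]
    rw [e1, e1, e2, e2]
  rw [eE]
  generalize ex u = X at *
  generalize ex ψ = G at *
  generalize ex ψ' = K at *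
  have hX1' : 1 - X ≠ 0 := by
    intro h0
    apply hX1
    linear_combination -h0
  have hXne : X ≠ 1 := fun h0 => hX1 (by rw [h0]; ring)
  have hGne : G ≠ -1 := fun h0 => hG1 (by rw [h0]; ring)
  have hKne : K ≠ -1 := fun h0 => hK1 (by rw [h0]; ring)
  have hG1' : G + 1 ≠ 0 := by rwa [add_comm]
  have hK1' : K + 1 ≠ 0 := by rwa [add_comm]
  have heq : -((1 - X) ^ 2 * G / (X * (1 + G) ^ 2)) + -((1 - X) ^ 2 * K / (X * (1 + K) ^ 2)) = 1 := by
    field_simp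
    linear_combination hg1
  have key := hid G K X hG hK hX hGne hKne hXne (by rwa [add_comm]) hXG (by rwa [add_comm]) hXK heq
  obtain ⟨-, hS1, hS2⟩ := hS
  -- the five term relation
  have x0 : (1 - X) / (1 + X * K) ≠ 0 := div_ne_zero hX1' hXK
  have y0 : (1 + K) / (1 + X * K) ≠ 0 := div_ne_zero hK1 hXK
  have ex : 1 - (1 - X) / (1 + X * K) = t1 X K := by
    rw [t1]; field_simp; ring
  have ey : 1 - (1 + K) / (1 + X * K) = K * (X - 1) / (1 + X * K) := by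
    rw [eq_div_iff hXK, sub_mul, div_mul_cancel₀ _ hXK]; ring
  have ht1 : t1 X K ≠ 0 := by
    rw [t1]; exact div_ne_zero (mul_ne_zero hX hK1') hXK
  have x1 : (1 - X) / (1 + X * K) ≠ 1 := by
    intro h0; rw [h0, sub_self] at ex; exact ht1 ex.symm
  have y1 : (1 + K) / (1 + X * K) ≠ 1 := by
    intro h0
    rw [h0, sub_self] at ey
    exact div_ne_zero (mul_ne_zero hK hX1) hXK ey.symm
  have xy : (1 - X) / (1 + X * K) ≠ (1 + K) / (1 + X * K) := by
    intro h0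
    rw [div_left_inj' hXK] at h0
    exact hXaK (by linear_combination -h0)
  have five := hF _ _ x0 x1 y0 y1 xy
  have f1 : (1 + K) / (1 + X * K) / ((1 - X) / (1 + X * K)) = ((1 - X) / (1 + K))⁻¹ := by
    rw [div_div_div_cancel_right₀ hXK, inv_div]
  have f2 : (1 - (1 - X) / (1 + X * K)) / (1 - (1 + K) / (1 + X * K)) = (t2 X K)⁻¹ := by
    rw [ex, ey, t1, t2, div_div_div_cancel_right₀ hXK, inv_div, add_comm K 1, mul_comm K (X - 1)]
  have f3 : (1 - ((1 - X) / (1 + X * K))⁻¹) / (1 - ((1 + K) / (1 + X * K))⁻¹) =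
      1 - -((1 + K) ^ 2 * G / (K * (1 + G) ^ 2)) := by
    have g1 : 1 - ((1 - X) / (1 + X * K))⁻¹ = -(X * (1 + K)) / (1 - X) := by
      rw [inv_div, eq_div_iff hX1', sub_mul, div_mul_cancel₀ _ hX1']; ring
    have g2 : 1 - ((1 + K) / (1 + X * K))⁻¹ = -(K * (X - 1)) / (1 + K) := by
      rw [inv_div, eq_div_iff hK1, sub_mul, div_mul_cancel₀ _ hK1]; ring
    rw [g1, g2]
    have hk : K * (X - 1) ≠ 0 := mul_ne_zero hK hX1
    have e3 : -(X * (1 + K)) / (1 - X) / (-(K * (X - 1)) / (1 + K)) =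
        (X * (1 + K) ^ 2) / ((1 - X) * (K * (X - 1))) := by
      field_simp
    rw [e3, div_eq_iff (mul_ne_zero hX1' hk)]
    field_simp
    linear_combination (-1) * hg1
  have g4 : Dv ((1 - X) / (1 + X * K)) = -Dv (t1 X K) := by
    have := hS1 ((1 - X) / (1 + X * K))
    rw [ex] at this
    linarith
  rw [f1, f2, f3, hS1, hS2, hS2, g4] at five
  have k1 : -((1 - X) * G / (X * (1 + G))) = t2 X G := by
    rw [t2]; field_simp; ring
  have k2 : X * (1 + G) / (1 + X * G) = t1 X G := by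
    rw [t1, add_comm G 1]
  rw [k1, k2] at key
  linarith

/-- the equations for the moduli at a hinge -/
theorem lsn {ψ ψ' u : ℂ} (h : HG ψ ψ' u) :
    Real.log (2 * Real.sin (fe ψ u).a) - Real.log (2 * Real.sin (fe ψ u).c) =
      ψ.im + be ψ u ∧
    Real.log (2 * Real.sin (fe ψ u).b) - Real.log (2 * Real.sin (fe ψ u).c) = ga ψ u ∧
    Real.log (2 * Real.sin (fe ψ u).a') - Real.log (2 * Real.sin (fe ψ u).c') =
      (Lg u ψ).re - ga ψ u ∧
    Real.log (2 * Real.sin (fe ψ u).b') - Real.log (2 * Real.sin (fe ψ u).c') =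
      be ψ u - ga ψ u ∧
    be ψ u - ga ψ u + ga ψ' u = ((Lg u ψ').re - ψ.im) / 2 ∧
    (Lg u ψ).re / 2 - ψ.im / 2 - be ψ u =
      Real.log ‖Complex.cos (ψ / 2)‖ - Real.log ‖Complex.cos (ψ' / 2)‖ := by
  have h' := hg_symm h
  have hn := h.sd
  have hn' := h.sd'
  have hg1 := hinge h
  have hg2 := hinge h'
  have hX : ex u ≠ 0 := Complex.exp_ne_zero _
  have hX1 := ne_X1 hn
  have hG : ex ψ ≠ 0 := Complex.exp_ne_zero _
  have hG1 := ne_G1 hn
  have hXG := ne_XG hn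
  have hXaG := ne_XaG hn
  have hK : ex ψ' ≠ 0 := Complex.exp_ne_zero _
  have hK1 := ne_G1 hn'
  have hXK := ne_XG hn'
  have hXaK := ne_XaG hn'
  have q1 := one_sub_t1 hn
  have q3 := one_sub_t2 hn
  have c1 := log_cos hG1
  have c2 := log_cos hK1
  obtain ⟨-, -, -, -, -, -, -, v1, v2⟩ := tri hn.im1
  obtain ⟨-, -, -, -, -, -, -, w1, w2⟩ := tri hn.im2
  have W := congrArg (fun z : ℂ => Real.log ‖z‖) (exp_form hn)
  have W' := congrArg (fun z : ℂ => Real.log ‖z‖) (exp_form hn')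
  have lG : Real.log ‖ex ψ‖ = -ψ.im := by
    rw [Complex.norm_exp, Real.log_exp]
    simp
  simp only [norm_div] at W W'
  rw [Complex.norm_exp, Real.log_exp] at W W'
  have n1 := norm_ne_zero_iff.2 hX
  have n2 := norm_ne_zero_iff.2 hG
  have n3 := norm_ne_zero_iff.2 hG1
  have n4 := norm_ne_zero_iff.2 hXG
  have n5 := norm_ne_zero_iff.2 hXaG
  have n6 := norm_ne_zero_iff.2 hK
  have n7 := norm_ne_zero_iff.2 hK1
  have n8 := norm_ne_zero_iff.2 hXK
  have n9 := norm_ne_zero_iff.2 hXaK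
  have n0 := norm_ne_zero_iff.2 hX1
  rw [Real.log_div n5 n4] at W
  rw [Real.log_div n9 n8] at W'
  simp only [fe, flS, be, ga]
  rw [q1] at v2
  rw [q3] at w2
  set X := ex u
  set G := ex ψ
  set K := ex ψ'
  have l1 (G : ℂ) (hG1 : 1 + G ≠ 0) (hXG : 1 + X * G ≠ 0) :
      Real.log ‖t1 X G‖ = Real.log ‖X‖ + Real.log ‖1 + G‖ - Real.log ‖1 + X * G‖ := by
    rw [t1, norm_div, norm_mul, Real.log_div (mul_ne_zero n1 (by
      rw [add_comm]; exact norm_ne_zero_iff.2 hG1)) (norm_ne_zero_iff.2 hXG),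
      Real.log_mul n1 (by rw [add_comm]; exact norm_ne_zero_iff.2 hG1), add_comm G 1]
  have l2 (G : ℂ) (hG : G ≠ 0) (hG1 : 1 + G ≠ 0) :
      Real.log ‖t2 X G‖ = Real.log ‖X - 1‖ + Real.log ‖G‖ - (Real.log ‖X‖ + Real.log ‖1 + G‖) := by
    have m1 := norm_ne_zero_iff.2 hG
    have m2 := norm_ne_zero_iff.2 hG1
    rw [t2, norm_div, norm_mul, norm_mul, Real.log_div (mul_ne_zero n0 m1) (mul_ne_zero n1 m2),
      Real.log_mul n0 m1, Real.log_mul n1 m2]
  rw [norm_div, norm_sub_rev 1 X, Real.log_div n0 n4] at v2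
  rw [norm_div, norm_mul, Real.log_div n5 (mul_ne_zero n1 n3), Real.log_mul n1 n3] at w2
  have H1 := congrArg (fun z : ℂ => Real.log ‖z‖) hg1
  have H2 := congrArg (fun z : ℂ => Real.log ‖z‖) hg2
  simp only [norm_neg, norm_mul, norm_pow] at H1 H2
  rw [norm_sub_rev 1 X, Real.log_mul (mul_ne_zero (pow_ne_zero 2 n0) n2) (pow_ne_zero 2 n7),
    Real.log_mul (pow_ne_zero 2 n0) n2, Real.log_mul (pow_ne_zero 2 n3) (mul_ne_zero n8 n9),
    Real.log_mul n8 n9, Real.log_pow, Real.log_pow, Real.log_pow] at H1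
  rw [norm_sub_rev 1 X, Real.log_mul (mul_ne_zero (pow_ne_zero 2 n0) n6) (pow_ne_zero 2 n3),
    Real.log_mul (pow_ne_zero 2 n0) n6, Real.log_mul (pow_ne_zero 2 n7) (mul_ne_zero n4 n5),
    Real.log_mul n4 n5, Real.log_pow, Real.log_pow, Real.log_pow] at H2
  push_cast at H1 H2
  rw [l1 G hG1 hXG] at v1 ⊢
  rw [l1 K hK1 hXK]
  rw [l2 G hG hG1] at w1 ⊢
  refine ⟨?_, ?_, ?_, ?_, ?_, ?_⟩ <;> linarith

lemma edge_id {ψ ψ' u : ℂ} (h : HG ψ ψ' u) (f g : Fl) (hf : f.Pos)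
    (hg : g.Pos) (hfg : f.b + f.c' + (g.b + g.c') = 2 * π) :
    Lf (fe ψ u) f + Lf (fe ψ' u) g = TT ψ u f g + TT ψ' u g f := by
  obtain ⟨p1, s2, s3, s4, s5, s6⟩ := shp h
  obtain ⟨p1', s2', s3', s4', s5', s6'⟩ := shp (hg_symm h)
  obtain ⟨l1, l2, l3, l4, l5, l6⟩ := lsn h
  obtain ⟨m1, m2, m3, m4, m5, m6⟩ := lsn (hg_symm h)
  obtain ⟨-, -, -, q1, -, -, -, q2⟩ := p1
  obtain ⟨-, -, -, q3, -, -, -, q4⟩ := p1'
  obtain ⟨-, -, -, q5, -, -, -, q6⟩ := hf
  obtain ⟨-, -, -, q7, -, -, -, q8⟩ := hg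
  have key := edge_alg (f.a - (fe ψ u).a) (f.b - (fe ψ u).b) (f.c - (fe ψ u).c)
    (f.a' - (fe ψ u).a') (f.b' - (fe ψ u).b') (f.c' - (fe ψ u).c')
    (g.a - (fe ψ' u).a) (g.b - (fe ψ' u).b) (g.c - (fe ψ' u).c)
    (g.a' - (fe ψ' u).a') (g.b' - (fe ψ' u).b') (g.c' - (fe ψ' u).c')
    (Real.log (2 * Real.sin (fe ψ u).a)) (Real.log (2 * Real.sin (fe ψ u).b))
    (Real.log (2 * Real.sin (fe ψ u).c)) (Real.log (2 * Real.sin (fe ψ u).a'))
    (Real.log (2 * Real.sin (fe ψ u).b')) (Real.log (2 * Real.sin (fe ψ u).c'))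
    (Real.log (2 * Real.sin (fe ψ' u).a)) (Real.log (2 * Real.sin (fe ψ' u).b))
    (Real.log (2 * Real.sin (fe ψ' u).c)) (Real.log (2 * Real.sin (fe ψ' u).a'))
    (Real.log (2 * Real.sin (fe ψ' u).b')) (Real.log (2 * Real.sin (fe ψ' u).c'))
    0 (be ψ u) (ga ψ u) 0 (be ψ' u) (ga ψ' u) ψ.im (Lg u ψ).re ψ'.im (Lg u ψ').re
    (Real.log ‖Complex.cos (ψ / 2)‖) (Real.log ‖Complex.cos (ψ' / 2)‖)
    (by linarith) (by linarith) (by linarith) (by linarith) (by linarith)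
    (by linarith) (by linarith) (by linarith) (by linarith) (by linarith) (by linarith)
    (by linarith) (by linarith) (by linarith) (by linarith) (by linarith)
  have e1 : f.tw - ψ.re = (f.a - (fe ψ u).a) + (f.a' - (fe ψ u).a') + (f.b - (fe ψ u).b) := by
    rw [← s5]; unfold Fl.tw; ring
  have e2 : f.cr - (Lg u ψ).im =
      (f.a - (fe ψ u).a) + (f.a' - (fe ψ u).a') + (f.c' - (fe ψ u).c') := by
    rw [← s6]; unfold Fl.cr; ring
  have e3 : g.tw - ψ'.re =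
      (g.a - (fe ψ' u).a) + (g.a' - (fe ψ' u).a') + (g.b - (fe ψ' u).b) := by
    rw [← s5']; unfold Fl.tw; ring
  have e4 : g.cr - (Lg u ψ').im =
      (g.a - (fe ψ' u).a) + (g.a' - (fe ψ' u).a') + (g.c' - (fe ψ' u).c') := by
    rw [← s6']; unfold Fl.cr; ring
  have e5 : ze f g = 2 * (f.a' - (fe ψ u).a') + ((g.a - (fe ψ' u).a) + (g.b' - (fe ψ' u).b')) -
      ((f.a - (fe ψ u).a) + (f.a' - (fe ψ u).a') + (f.b - (fe ψ u).b)) := by
    rw [← e1]; unfold ze; linarith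
  have e6 : ze g f = 2 * (g.a' - (fe ψ' u).a') + ((f.a - (fe ψ u).a) + (f.b' - (fe ψ u).b')) -
      ((g.a - (fe ψ' u).a) + (g.a' - (fe ψ' u).a') + (g.b - (fe ψ' u).b)) := by
    rw [← e3]; unfold ze; linarith
  unfold Lf TT
  rw [e1, e2, e3, e4, e5, e6]
  exact key

end Pool.Agent.TH609.Z
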